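import Pool.Agent.Helper91.WG.Final

namespace Pool.Agent.Results.MP_7f87b1_gt.GenusSymplectic

open H91WG

/-- Let `𝒢` be a groupoid over a Hausdorff manifold `M`, presented by a symplectic manifold
`(P, Ω)` (for instance the Weinstein groupoid of a Poisson manifold, or a symplectic groupoid with
second countable space of arrows).  Suppose that its quotient `ℋ` by the commutator subgroups of
the isotropy groups is a Lie groupoid (and `P → H` is a submersion).  Then `ℋ` is a symplectic
groupoid: it carries a multiplicative symplectic form, whose pull-back to `P` is `Ω`. -/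
theorem result {n m d : ℕ} {M : Man n} [T2Space M.pt] {P : Man m} {G : Type*} (𝒢 : Gpd M.pt G)
    (p : P.pt → G) (Ω : Form P) (h𝒢 : IsPresentation 𝒢 p Ω) {H : Man d} (ℋ : Gpd M.pt H.pt)
    (_hℋ : IsLie M H ℋ) (q : G → H.pt) (hq : IsAbelianization 𝒢 ℋ q)
    (hs : IsSubmersion P H (fun a => q (p a))) :
    ∃ Ω' : Form H, IsSymplecticForm Ω' ∧ IsMultiplicativeForm ℋ Ω' ∧
      ∀ a u v, (Ω' (q (p a))).ev (der P H (fun a => q (p a)) a u)
        (der P H (fun a => q (p a)) a v) = (Ω a).ev u v :=
  main' 𝒢 p Ω h𝒢 ℋ q hq hs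

end Pool.Agent.Results.MP_7f87b1_gt.GenusSymplectic
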